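import Mathlib

/-!
# The questions whether `h_κ` is majorised by a computable function are equivalent for finite `κ`
-/

namespace Pool.Agent.Results.MP_249e8c_lc.FiniteKappa

open MvPolynomial

/-! ## Definitions -/

/-- `D(j, v₁, …, v_i)`: the variable `0` of `D` is the parameter `x`, the variable `t + 1` is the
`t`-th unknown. -/
noncomputable def val {i : ℕ} (D : MvPolynomial (Fin (i + 1)) ℤ) (j : ℕ) (v : Fin i → ℕ) : ℤ :=
  eval (Fin.cons (j : ℤ) (fun t => (v t : ℤ)) : Fin (i + 1) → ℤ) D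

/-- The set of the solutions in natural numbers of `D(j, x₁, …, x_i) = 0`. -/
def sols {i : ℕ} (D : MvPolynomial (Fin (i + 1)) ℤ) (j : ℕ) : Set (Fin i → ℕ) :=
  {v | val D j v = 0}

/-- `D ∈ B(κ, n)`; here `κ : ℕ∞`, and `⊤` stands for `ω`. -/
structure InB (κ : ℕ∞) (n : ℕ) {i : ℕ} (D : MvPolynomial (Fin (i + 1)) ℤ) : Prop where
  unknowns : i ≤ n
  degree : D.totalDegree ≤ n
  coeff : ∀ m, |D.coeff m| ≤ (n : ℤ)
  solvable : ∀ j, (sols D j).Nonempty
  few : ∀ j, (sols D j).encard < κ

/-- `b` is an upper bound as in the definition of `h_κ(n)`. -/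
def IsBound (κ : ℕ∞) (n b : ℕ) : Prop :=
  ∀ (i : ℕ) (D : MvPolynomial (Fin (i + 1)) ℤ), InB κ n D → ∃ v ∈ sols D n, ∀ t, v t ≤ b

/-- `h_κ(n)`: the least `b` with `IsBound κ n b`. -/
noncomputable def h (κ : ℕ∞) (n : ℕ) : ℕ := sInf {b | IsBound κ n b}

/-- `f` is majorised by some computable function. -/
def Majorised (f : ℕ → ℕ) : Prop := ∃ F : ℕ → ℕ, Computable F ∧ ∀ n, 1 ≤ n → f n ≤ F n

/-! ## The sum of the absolute values of the coefficients -/

section l1

variable {σ τ : Type*}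

/-- sum of the absolute values of the coefficients -/
noncomputable def l1 (p : MvPolynomial σ ℤ) : ℕ := ∑ m ∈ p.support, (p.coeff m).natAbs

theorem l1_eq {p : MvPolynomial σ ℤ} {s : Finset (σ →₀ ℕ)} (hs : p.support ⊆ s) :
    l1 p = ∑ m ∈ s, (p.coeff m).natAbs :=
  Finset.sum_subset hs fun m _ hm => by
    rw [notMem_support_iff.1 hm]; rfl

theorem coeff_le_l1 (p : MvPolynomial σ ℤ) (m : σ →₀ ℕ) : (p.coeff m).natAbs ≤ l1 p := by
  by_cases hm : m ∈ p.support
  · exact Finset.single_le_sum (f := fun m => (p.coeff m).natAbs) (fun _ _ => Nat.zero_le _) hm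
  · rw [notMem_support_iff.1 hm]; simp

theorem l1_add_le (p q : MvPolynomial σ ℤ) : l1 (p + q) ≤ l1 p + l1 q := by
  classical
  rw [l1_eq (support_add (p := p) (q := q)), l1_eq (p := p) (s := p.support ∪ q.support)
    Finset.subset_union_left, l1_eq (p := q) (s := p.support ∪ q.support)
    Finset.subset_union_right, ← Finset.sum_add_distrib]
  exact Finset.sum_le_sum fun m _ => by
    rw [coeff_add]; exact Int.natAbs_add_le _ _

theorem l1_zero : l1 (0 : MvPolynomial σ ℤ) = 0 := by simp [l1]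

theorem l1_neg (p : MvPolynomial σ ℤ) : l1 (-p) = l1 p := by
  classical
  unfold l1
  rw [support_neg]
  exact Finset.sum_congr rfl fun m _ => by rw [coeff_neg, Int.natAbs_neg]

theorem l1_sub_le (p q : MvPolynomial σ ℤ) : l1 (p - q) ≤ l1 p + l1 q := by
  rw [sub_eq_add_neg, ← l1_neg q]; exact l1_add_le _ _

theorem l1_monomial_le (m : σ →₀ ℕ) (a : ℤ) : l1 (monomial m a) ≤ a.natAbs := by
  classical
  rw [l1_eq (s := {m}) support_monomial_subset]
  simp

theorem l1_C_le (a : ℤ) : l1 (C a : MvPolynomial σ ℤ) ≤ a.natAbs := l1_monomial_le 0 a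

theorem l1_one_le : l1 (1 : MvPolynomial σ ℤ) ≤ 1 := by simpa using l1_C_le (σ := σ) 1

theorem l1_X_le (s : σ) : l1 (X s : MvPolynomial σ ℤ) ≤ 1 :=
  l1_monomial_le (Finsupp.single s 1) 1

theorem l1_sum_le {ι : Type*} (s : Finset ι) (f : ι → MvPolynomial σ ℤ) :
    l1 (∑ i ∈ s, f i) ≤ ∑ i ∈ s, l1 (f i) := by
  classical
  induction s using Finset.induction_on with
  | empty => simp [l1_zero]
  | insert a s ha ih =>
    rw [Finset.sum_insert ha, Finset.sum_insert ha]
    exact (l1_add_le _ _).trans (Nat.add_le_add_left ih _)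

theorem l1_monomial_mul_le (a : σ →₀ ℕ) (b : ℤ) (q : MvPolynomial σ ℤ) :
    l1 (monomial a b * q) ≤ b.natAbs * l1 q := by
  conv_lhs => rw [q.as_sum, Finset.mul_sum]
  refine (l1_sum_le _ _).trans ?_
  rw [l1, Finset.mul_sum]
  refine Finset.sum_le_sum fun m _ => ?_
  rw [monomial_mul, ← Int.natAbs_mul]
  exact l1_monomial_le _ _

theorem l1_mul_le (p q : MvPolynomial σ ℤ) : l1 (p * q) ≤ l1 p * l1 q := by
  conv_lhs => rw [p.as_sum, Finset.sum_mul]
  refine (l1_sum_le _ _).trans ?_
  rw [l1, Finset.sum_mul]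
  exact Finset.sum_le_sum fun m _ => l1_monomial_mul_le _ _ _

theorem l1_pow_le (p : MvPolynomial σ ℤ) (k : ℕ) : l1 (p ^ k) ≤ l1 p ^ k := by
  induction k with
  | zero => simpa using l1_one_le
  | succ k ih =>
    rw [pow_succ, pow_succ]
    exact (l1_mul_le _ _).trans (Nat.mul_le_mul_right _ ih)

theorem l1_prod_le {ι : Type*} (s : Finset ι) (f : ι → MvPolynomial σ ℤ) :
    l1 (∏ i ∈ s, f i) ≤ ∏ i ∈ s, l1 (f i) := by
  classical
  induction s using Finset.induction_on with
  | empty => simpa using l1_one_le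
  | insert a s ha ih =>
    rw [Finset.prod_insert ha, Finset.prod_insert ha]
    exact (l1_mul_le _ _).trans (Nat.mul_le_mul_left _ ih)

theorem sum_le_totalDegree [Fintype τ] {D : MvPolynomial τ ℤ} {m : τ →₀ ℕ} (hm : m ∈ D.support) :
    ∑ t, m t ≤ D.totalDegree := by
  have := le_totalDegree hm
  rwa [Finsupp.sum_fintype _ _ (fun _ => rfl)] at this

theorem l1_aeval_le [Fintype τ] (D : MvPolynomial τ ℤ) (f : τ → MvPolynomial σ ℤ) (M d : ℕ)
    (hM : 1 ≤ M) (hf : ∀ t, l1 (f t) ≤ M) (hd : D.totalDegree ≤ d) :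
    l1 (aeval f D) ≤ l1 D * M ^ d := by
  rw [aeval_def, eval₂_eq']
  refine (l1_sum_le _ _).trans ?_
  rw [l1, Finset.sum_mul]
  refine Finset.sum_le_sum fun m hm => ?_
  refine (l1_mul_le _ _).trans (Nat.mul_le_mul (l1_C_le _) ?_)
  refine (l1_prod_le _ _).trans ?_
  refine (Finset.prod_le_prod' fun t _ => (l1_pow_le (f t) (m t)).trans
    (Nat.pow_le_pow_left (hf t) _)).trans ?_
  rw [Finset.prod_pow_eq_pow_sum]
  exact Nat.pow_le_pow_right hM ((sum_le_totalDegree hm).trans hd)

theorem totalDegree_aeval_le [Fintype τ] (D : MvPolynomial τ ℤ) (f : τ → MvPolynomial σ ℤ)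
    (d : ℕ) (hf : ∀ t, (f t).totalDegree ≤ 1) (hd : D.totalDegree ≤ d) :
    (aeval f D).totalDegree ≤ d := by
  rw [aeval_def, eval₂_eq']
  refine (totalDegree_finsetSum_le (d := d) ?_)
  intro m hm
  refine (totalDegree_mul _ _).trans ?_
  rw [algebraMap_eq, totalDegree_C, Nat.zero_add]
  refine (totalDegree_finsetProd _ _).trans ?_
  refine (Finset.sum_le_sum (g := fun t => m t) fun t _ => (totalDegree_pow _ _).trans
    (by simpa using Nat.mul_le_mul_left (m t) (hf t))).trans ?_
  exact (sum_le_totalDegree hm).trans hd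

theorem l1_rename_coeff [Fintype σ] (f : σ → τ) (hf : Function.Injective f)
    (p : MvPolynomial σ ℤ) (m : τ →₀ ℕ) : ((rename f p).coeff m).natAbs ≤ l1 p := by
  by_cases h0 : (rename f p).coeff m = 0
  · rw [h0]; simp
  · obtain ⟨u, hu, _⟩ := coeff_rename_ne_zero f p m h0
    rw [← hu, coeff_rename_mapDomain f hf]
    exact coeff_le_l1 _ _

/-- crude bound for the sum of the absolute values of the coefficients -/
theorem l1_le_of_coeff {i n : ℕ} (D : MvPolynomial (Fin (i + 1)) ℤ) (hi : i ≤ n)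
    (hd : D.totalDegree ≤ n) (hc : ∀ m, |D.coeff m| ≤ (n : ℤ)) :
    l1 D ≤ (n + 1) ^ (n + 1) * n := by
  classical
  have h1 : l1 D ≤ D.support.card * n := by
    rw [l1, ← smul_eq_mul]
    refine Finset.sum_le_card_nsmul _ _ _ fun m _ => ?_
    have := hc m
    rw [Int.abs_eq_natAbs] at this
    exact_mod_cast this
  refine h1.trans (Nat.mul_le_mul_right _ ?_)
  have h2 : D.support.card ≤ Fintype.card (Fin (i + 1) → Fin (n + 1)) := by
    rw [← Finset.card_univ]
    refine Finset.card_le_card_of_injOn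
      (fun m => fun t => (⟨min (m t) n, by omega⟩ : Fin (n + 1))) (fun _ _ => by simp) ?_
    intro m hm m' hm' e
    ext t
    have h3 := congrFun e t
    simp only [Fin.mk.injEq] at h3
    have h4 : m t ≤ n := le_trans (le_trans (Finset.single_le_sum (f := fun t => m t)
      (fun _ _ => Nat.zero_le _) (Finset.mem_univ t)) (sum_le_totalDegree hm)) hd
    have h5 : m' t ≤ n := le_trans (le_trans (Finset.single_le_sum (f := fun t => m' t)
      (fun _ _ => Nat.zero_le _) (Finset.mem_univ t)) (sum_le_totalDegree hm')) hd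
    omega
  refine h2.trans ?_
  rw [Fintype.card_fun, Fintype.card_fin, Fintype.card_fin]
  exact Nat.pow_le_pow_right (by omega) (by omega)

end l1

/-! ## `h` is well defined -/

theorem finite_polys (i n : ℕ) :
    {D : MvPolynomial (Fin (i + 1)) ℤ | D.totalDegree ≤ n ∧ ∀ m, |D.coeff m| ≤ (n : ℤ)}.Finite := by
  classical
  have hfin : {f : Fin (i + 1) →₀ ℕ | f.degree ≤ n}.Finite := Finsupp.finite_of_degree_le n
  have := hfin.fintype
  have hfin2 : (Set.univ.pi fun _ : {f : Fin (i + 1) →₀ ℕ | f.degree ≤ n} =>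
      Set.Icc (-(n : ℤ)) n).Finite := Set.Finite.pi fun _ => Set.finite_Icc _ _
  refine Set.Finite.of_finite_image (f := fun D => fun m : {f : Fin (i + 1) →₀ ℕ | f.degree ≤ n} =>
    D.coeff m) (hfin2.subset ?_) ?_
  · rintro _ ⟨D, hD, rfl⟩ m _
    exact abs_le.1 (hD.2 _)
  · intro D hD D' hD' e
    ext m
    by_cases hm : m.degree ≤ n
    · exact congrFun e ⟨m, hm⟩
    · have key : ∀ P : MvPolynomial (Fin (i + 1)) ℤ, P.totalDegree ≤ n → P.coeff m = 0 := by
        intro P hP
        by_contra hne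
        have := le_totalDegree (p := P) (mem_support_iff.2 hne)
        rw [Finsupp.sum_fintype _ _ (fun _ => rfl)] at this
        rw [Finsupp.degree_eq_sum] at hm
        exact hm (this.trans hP)
      rw [key D hD.1, key D' hD'.1]

theorem exists_bound (κ : ℕ∞) (n : ℕ) : ∃ b, IsBound κ n b := by
  classical
  have key : ∀ i : ℕ, ∃ b : ℕ, ∀ D : MvPolynomial (Fin (i + 1)) ℤ, InB κ n D →
      ∃ v ∈ sols D n, ∀ t, v t ≤ b := by
    intro i
    have hfin := finite_polys i n
    have : ∀ D : MvPolynomial (Fin (i + 1)) ℤ, ∃ b : ℕ, InB κ n D →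
      ∃ v ∈ sols D n, ∀ t, v t ≤ b := by
      intro D
      by_cases hD : InB κ n D
      · obtain ⟨v, hv⟩ := hD.solvable n
        exact ⟨∑ t, v t, fun _ => ⟨v, hv, fun t => Finset.single_le_sum (f := fun t => v t)
          (fun _ _ => Nat.zero_le _) (Finset.mem_univ t)⟩⟩
      · exact ⟨0, fun h => absurd h hD⟩
    choose b hb using this
    refine ⟨∑ D ∈ hfin.toFinset, b D, fun D hD => ?_⟩
    obtain ⟨v, hv, hvb⟩ := hb D hD
    refine ⟨v, hv, fun t => (hvb t).trans ?_⟩
    exact Finset.single_le_sum (f := fun D => b D) (fun _ _ => Nat.zero_le _)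
      (hfin.mem_toFinset.2 ⟨hD.degree, hD.coeff⟩)
  choose b hb using key
  refine ⟨∑ i ∈ Finset.range (n + 1), b i, fun i D hD => ?_⟩
  obtain ⟨v, hv, hvb⟩ := hb i D hD
  refine ⟨v, hv, fun t => (hvb t).trans ?_⟩
  exact Finset.single_le_sum (f := fun i => b i) (fun _ _ => Nat.zero_le _)
    (Finset.mem_range.2 (Nat.lt_succ_of_le hD.unknowns))

theorem isBound_h (κ : ℕ∞) (n : ℕ) : IsBound κ n (h κ n) := Nat.sInf_mem (exists_bound κ n)

theorem h_mono {κ κ' : ℕ∞} (hκ : κ ≤ κ') (n : ℕ) : h κ n ≤ h κ' n :=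
  Nat.sInf_le fun i D hD => isBound_h κ' n i D
    ⟨hD.unknowns, hD.degree, hD.coeff, hD.solvable, fun j => (hD.few j).trans_le hκ⟩

/-! ## A separating linear form -/

/-- the linear form `∑ a^t y_t` -/
def lin {i : ℕ} (a : ℕ) (y : Fin i → ℕ) : ℕ := ∑ t : Fin i, a ^ (t : ℕ) * y t

theorem exists_separating {i : ℕ} (S : Finset (Fin i → ℕ)) :
    ∃ a ≤ S.card ^ 2 * i, Set.InjOn (lin a) (S : Set (Fin i → ℕ)) := by
  classical
  -- the polynomial of a pair
  let P : (Fin i → ℕ) × (Fin i → ℕ) → Polynomial ℤ := fun q =>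
    ∑ t : Fin i, Polynomial.monomial (t : ℕ) ((q.1 t : ℤ) - (q.2 t : ℤ))
  have hP0 : ∀ q : (Fin i → ℕ) × (Fin i → ℕ), q.1 ≠ q.2 → P q ≠ 0 := by
    intro q hq h0
    apply hq
    funext t
    have h1 : (P q).coeff t = (q.1 t : ℤ) - q.2 t := by
      simp only [P, Polynomial.finsetSum_coeff, Polynomial.coeff_monomial]
      rw [Finset.sum_eq_single t]
      · simp
      · intro b _ hb
        rw [if_neg]
        exact fun h => hb (Fin.ext h)
      · simp
    rw [h0, Polynomial.coeff_zero] at h1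
    omega
  have hdeg : ∀ q : (Fin i → ℕ) × (Fin i → ℕ), (P q).natDegree ≤ i := by
    intro q
    refine Polynomial.natDegree_sum_le_of_forall_le _ _ fun t _ => ?_
    exact (Polynomial.natDegree_monomial_le _).trans t.2.le
  let bad : Finset ℤ := ((S ×ˢ S).filter fun q => q.1 ≠ q.2).biUnion fun q => (P q).roots.toFinset
  have hbad : bad.card ≤ S.card ^ 2 * i := by
    refine (Finset.card_biUnion_le).trans ?_
    refine (Finset.sum_le_card_nsmul _ _ i fun q _ =>
      (Multiset.toFinset_card_le _).trans ((Polynomial.card_roots' _).trans (hdeg q))).trans ?_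
    rw [smul_eq_mul, sq, ← Finset.card_product]
    exact Nat.mul_le_mul_right _ (Finset.card_filter_le _ _)
  obtain ⟨a, ha, hab⟩ : ∃ a ∈ Finset.range (S.card ^ 2 * i + 1), (a : ℤ) ∉ bad := by
    by_contra hcon
    push Not at hcon
    have : ((Finset.range (S.card ^ 2 * i + 1)).image (fun a : ℕ => (a : ℤ))).card ≤ bad.card := by
      apply Finset.card_le_card
      intro z hz
      obtain ⟨a, ha, rfl⟩ := Finset.mem_image.1 hz
      exact hcon a ha
    rw [Finset.card_image_of_injective _ Nat.cast_injective, Finset.card_range] at this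
    omega
  refine ⟨a, Nat.lt_succ_iff.1 (Finset.mem_range.1 ha), ?_⟩
  intro y hy y' hy' e
  by_contra hne
  apply hab
  refine Finset.mem_biUnion.2 ⟨(y, y'), Finset.mem_filter.2
    ⟨Finset.mem_product.2 ⟨hy, hy'⟩, hne⟩, ?_⟩
  rw [Multiset.mem_toFinset, Polynomial.mem_roots (hP0 _ hne), Polynomial.IsRoot.def,
    Polynomial.eval_finsetSum]
  simp only [Polynomial.eval_monomial]
  have e' : ((lin a y : ℕ) : ℤ) = (lin a y' : ℕ) := by exact_mod_cast e
  simp only [lin, Nat.cast_sum, Nat.cast_mul, Nat.cast_pow] at e'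
  rw [← sub_eq_zero, ← Finset.sum_sub_distrib] at e'
  rw [← e']
  exact Finset.sum_congr rfl fun t _ => by ring

/-! ## The new equation -/

section construction

variable {i m : ℕ} (D : MvPolynomial (Fin (i + 1)) ℤ) (n a : ℕ)

/-- `D(n, y^r)` as a polynomial in the unknowns `(r, t + 1)` -/
noncomputable def solPoly (r : Fin m) : MvPolynomial (Fin m × Fin (i + 1)) ℤ :=
  aeval (Fin.cons (C (n : ℤ)) (fun t : Fin i => X (r, t.succ)) :
    Fin (i + 1) → MvPolynomial (Fin m × Fin (i + 1)) ℤ) D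

/-- the linear form in the unknowns `(r, t + 1)` -/
noncomputable def linPoly (i : ℕ) (a : ℕ) (r : Fin m) : MvPolynomial (Fin m × Fin (i + 1)) ℤ :=
  ∑ t : Fin i, C ((a : ℤ) ^ (t : ℕ)) * X (r, t.succ)

/-- `L(y^{r-1}) + 1`, and `0` for the first index -/
noncomputable def prevPoly (i : ℕ) (a : ℕ) (r : Fin m) : MvPolynomial (Fin m × Fin (i + 1)) ℤ :=
  if hr : (r : ℕ) = 0 then 0 else linPoly i a ⟨(r : ℕ) - 1, by omega⟩ + 1

/-- the slack equation -/
noncomputable def slackPoly (i : ℕ) (a : ℕ) (r : Fin m) : MvPolynomial (Fin m × Fin (i + 1)) ℤ :=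
  linPoly i a r - prevPoly i a r - X (r, 0)

/-- the equation -/
noncomputable def bigPoly (m : ℕ) : MvPolynomial (Fin m × Fin (i + 1)) ℤ :=
  ∑ r : Fin m, (solPoly D n r ^ 2 + slackPoly i a r ^ 2)

/-- the value at natural numbers -/
noncomputable def nval {σ : Type*} (p : MvPolynomial σ ℤ) (z : σ → ℕ) : ℤ :=
  eval (fun s => (z s : ℤ)) p

/-- the `r`-th block -/
def block {m i : ℕ} (z : Fin m × Fin (i + 1) → ℕ) (r : Fin m) : Fin i → ℕ := fun t => z (r, t.succ)

theorem nval_solPoly (z : Fin m × Fin (i + 1) → ℕ) (r : Fin m) :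
    nval (solPoly D n r) z = val D n (block z r) := by
  rw [nval, solPoly, val, ← MvPolynomial.coe_aeval_eq_eval, ← MvPolynomial.coe_aeval_eq_eval]
  simp only [RingHom.coe_coe]
  rw [← AlgHom.comp_apply, comp_aeval]
  congr 2
  funext t
  refine Fin.cases ?_ (fun t => ?_) t
  · simp
  · simp [block]

theorem nval_linPoly (z : Fin m × Fin (i + 1) → ℕ) (r : Fin m) :
    nval (linPoly i a r) z = (lin a (block z r) : ℕ) := by
  simp [nval, linPoly, lin, block]

theorem nval_bigPoly_eq_zero (z : Fin m × Fin (i + 1) → ℕ) :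
    nval (bigPoly D n a m) z = 0 ↔ (∀ r, val D n (block z r) = 0) ∧
      ∀ r : Fin m, (∀ _ : (r : ℕ) = 0, z (r, 0) = lin a (block z r)) ∧
        ∀ _ : (r : ℕ) ≠ 0, lin a (block z r) =
          lin a (block z ⟨(r : ℕ) - 1, by omega⟩) + 1 + z (r, 0) := by
  have h1 : nval (bigPoly D n a m) z =
      ∑ r : Fin m, (nval (solPoly D n r) z ^ 2 + nval (slackPoly i a r) z ^ 2) := by
    simp [nval, bigPoly]
  rw [h1, Finset.sum_eq_zero_iff_of_nonneg (fun r _ => by positivity)]
  have h2 : ∀ r : Fin m, nval (slackPoly i a r) z = 0 ↔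
      (∀ _ : (r : ℕ) = 0, z (r, 0) = lin a (block z r)) ∧
        ∀ hr : (r : ℕ) ≠ 0, lin a (block z r) =
          lin a (block z ⟨(r : ℕ) - 1, by omega⟩) + 1 + z (r, 0) := by
    intro r
    have h3 : nval (slackPoly i a r) z =
        nval (linPoly i a r) z - nval (prevPoly i a r) z - z (r, 0) := by
      simp [nval, slackPoly]
    by_cases hr : (r : ℕ) = 0
    · have h4 : nval (prevPoly i a r) z = 0 := by simp [nval, prevPoly, hr]
      rw [h3, h4, nval_linPoly]
      constructor
      · intro h; exact ⟨fun _ => by omega, fun h' => absurd hr h'⟩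
      · intro h; have := h.1 hr; omega
    · have h4 : nval (prevPoly i a r) z =
          (lin a (block z ⟨(r : ℕ) - 1, by omega⟩) : ℕ) + 1 := by
        rw [← nval_linPoly]; simp [nval, prevPoly, hr]
      rw [h3, h4, nval_linPoly]
      constructor
      · intro h; exact ⟨fun h' => absurd h' hr, fun _ => by omega⟩
      · intro h; have := h.2 hr; omega
  constructor
  · intro h
    refine ⟨fun r => ?_, fun r => (h2 r).1 ?_⟩
    · rw [← nval_solPoly]; have := h r (Finset.mem_univ r); nlinarith [sq_nonneg (nval (solPoly D n r) z), sq_nonneg (nval (slackPoly i a r) z)]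
    · have := h r (Finset.mem_univ r); nlinarith [sq_nonneg (nval (solPoly D n r) z), sq_nonneg (nval (slackPoly i a r) z)]
  · rintro ⟨h, h'⟩ r _
    rw [nval_solPoly, h r, (h2 r).2 (h' r)]; simp

/-- The equation has exactly one solution, and its blocks are solutions of `D(n, ·) = 0`. -/
theorem exists_unique (S : Finset (Fin i → ℕ)) (hS : ∀ y, y ∈ S ↔ val D n y = 0)
    (ha : Set.InjOn (lin a) (S : Set (Fin i → ℕ))) :
    ∃ z : Fin S.card × Fin (i + 1) → ℕ, ∀ z', nval (bigPoly D n a S.card) z' = 0 ↔ z' = z := by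
  classical
  have hcard : (S.image (lin a)).card = S.card := Finset.card_image_of_injOn ha
  let e : Fin S.card → ℕ := (S.image (lin a)).orderEmbOfFin hcard
  have he : StrictMono e := ((S.image (lin a)).orderEmbOfFin hcard).strictMono
  have hmem : ∀ r, ∃ y ∈ S, lin a y = e r := fun r =>
    Finset.mem_image.1 (Finset.orderEmbOfFin_mem _ hcard r)
  choose y hyS hye using hmem
  let z : Fin S.card × Fin (i + 1) → ℕ := fun q =>
    Fin.cases (if hr : (q.1 : ℕ) = 0 then e q.1 else e q.1 - (e ⟨(q.1 : ℕ) - 1, by omega⟩ + 1))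
      (fun t => y q.1 t) q.2
  have hz0 : ∀ r, z (r, 0) = if hr : (r : ℕ) = 0 then e r else
      e r - (e ⟨(r : ℕ) - 1, by omega⟩ + 1) := fun r => rfl
  have hzb : ∀ r, block z r = y r := fun r => rfl
  refine ⟨z, fun z' => ⟨fun h => ?_, ?_⟩⟩
  · rw [nval_bigPoly_eq_zero] at h
    obtain ⟨h1, h2⟩ := h
    have hb : ∀ r, block z' r ∈ S := fun r => (hS _).2 (h1 r)
    have hmono : StrictMono fun r => lin a (block z' r) := by
      have key : ∀ q : ℕ, ∀ hq : q < S.card, ∀ p : ℕ, ∀ hp : p < q,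
          lin a (block z' ⟨p, hp.trans hq⟩) < lin a (block z' ⟨q, hq⟩) := by
        intro q
        induction q with
        | zero => intro _ p hp; omega
        | succ q ih =>
          intro hq p hp
          have h3 : lin a (block z' ⟨q + 1, hq⟩) =
              lin a (block z' ⟨q, by omega⟩) + 1 + z' (⟨q + 1, hq⟩, 0) :=
            (h2 ⟨q + 1, hq⟩).2 (by simp)
          rcases Nat.lt_succ_iff_lt_or_eq.1 hp with hp' | hp'
          · have := ih (by omega) p hp'
            omega
          · subst hp'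
            omega
      intro p q hpq
      exact key q.1 q.2 p.1 hpq
    have huniq := Finset.orderEmbOfFin_unique hcard
      (fun r => Finset.mem_image.2 ⟨_, hb r, rfl⟩) hmono
    have h5 : ∀ r, block z' r = y r := fun r =>
      ha (hb r) (hyS r) ((congrFun huniq r).trans (hye r).symm)
    funext q
    obtain ⟨r, t⟩ := q
    refine Fin.cases ?_ (fun t => congrFun (h5 r) t) t
    rw [hz0]
    by_cases hr : (r : ℕ) = 0
    · rw [dif_pos hr, (h2 r).1 hr, h5, hye]
    · rw [dif_neg hr]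
      have := (h2 r).2 hr
      rw [h5, h5, hye, hye] at this
      omega
  · rintro rfl
    rw [nval_bigPoly_eq_zero]
    refine ⟨fun r => ?_, fun r => ⟨fun hr => ?_, fun hr => ?_⟩⟩
    · rw [hzb]; exact (hS _).1 (hyS r)
    · rw [hz0, dif_pos hr, hzb, hye]
    · rw [hz0, dif_neg hr, hzb, hzb, hye, hye]
      have : e ⟨(r : ℕ) - 1, by omega⟩ < e r := he (Fin.lt_def.2 (by simp; omega))
      omega

theorem totalDegree_linPoly (r : Fin m) : (linPoly i a r).totalDegree ≤ 1 := by
  refine totalDegree_finsetSum_le fun t _ => (totalDegree_mul _ _).trans ?_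
  rw [totalDegree_C, totalDegree_X]

theorem totalDegree_slackPoly (r : Fin m) : (slackPoly i a r).totalDegree ≤ 1 := by
  refine (totalDegree_sub _ _).trans (max_le ((totalDegree_sub _ _).trans (max_le
    (totalDegree_linPoly a r) ?_)) (by rw [totalDegree_X]))
  unfold prevPoly
  split_ifs
  · simp
  · refine (totalDegree_add _ _).trans (max_le (totalDegree_linPoly a _) (by simp))

theorem totalDegree_bigPoly (hn : 1 ≤ n) (hd : D.totalDegree ≤ n) :
    (bigPoly D n a m).totalDegree ≤ 2 * n := by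
  refine totalDegree_finsetSum_le fun r _ => (totalDegree_add _ _).trans (max_le ?_ ?_)
  · refine (totalDegree_pow _ _).trans (Nat.mul_le_mul_left 2 ?_)
    refine totalDegree_aeval_le D _ n (fun t => ?_) hd
    refine Fin.cases ?_ (fun t => ?_) t
    · rw [Fin.cons_zero, totalDegree_C]; exact Nat.zero_le _
    · rw [Fin.cons_succ, totalDegree_X]
  · refine (totalDegree_pow _ _).trans (Nat.mul_le_mul_left 2 ?_)
    exact (totalDegree_slackPoly a r).trans hn

theorem l1_linPoly {K : ℕ} (haK : a ≤ K) (hK : 1 ≤ K) (hin : i ≤ n) (r : Fin m) :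
    l1 (linPoly i a r) ≤ n * K ^ n := by
  refine (l1_sum_le _ _).trans ?_
  refine (Finset.sum_le_card_nsmul _ _ (K ^ n) fun t _ => ?_).trans ?_
  · refine (l1_mul_le _ _).trans ?_
    refine (Nat.mul_le_mul (l1_C_le _) (l1_X_le _)).trans ?_
    rw [mul_one, Int.natAbs_pow, Int.natAbs_natCast]
    exact (Nat.pow_le_pow_left haK _).trans (Nat.pow_le_pow_right hK (t.2.le.trans hin))
  · rw [smul_eq_mul, Finset.card_univ, Fintype.card_fin]
    exact Nat.mul_le_mul_right _ hin

theorem l1_bigPoly {K : ℕ} (haK : a ≤ K) (hK : 1 ≤ K) (hin : i ≤ n) (hn : 1 ≤ n)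
    (hd : D.totalDegree ≤ n) (hc : ∀ m, |D.coeff m| ≤ (n : ℤ)) :
    l1 (bigPoly D n a m) ≤
      m * (((n + 1) ^ (n + 1) * n * n ^ n) ^ 2 + (2 * (n * K ^ n) + 2) ^ 2) := by
  refine (l1_sum_le _ _).trans ?_
  refine (Finset.sum_le_card_nsmul _ _ _ fun r _ => ?_).trans
    (by rw [smul_eq_mul, Finset.card_univ, Fintype.card_fin])
  refine (l1_add_le _ _).trans (Nat.add_le_add ?_ ?_)
  · refine (l1_pow_le _ _).trans (Nat.pow_le_pow_left ?_ 2)
    refine (l1_aeval_le D _ n n hn (fun t => ?_) hd).trans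
      (Nat.mul_le_mul_right _ (l1_le_of_coeff D hin hd hc))
    refine Fin.cases ?_ (fun t => ?_) t
    · simpa using l1_C_le (σ := Fin m × Fin (i + 1)) (n : ℤ)
    · simpa using (l1_X_le _).trans hn
  · refine (l1_pow_le _ _).trans (Nat.pow_le_pow_left ?_ 2)
    have h1 : l1 (prevPoly i a r) ≤ n * K ^ n + 1 := by
      unfold prevPoly
      split_ifs
      · rw [l1_zero]; omega
      · exact (l1_add_le _ _).trans (Nat.add_le_add (l1_linPoly n a haK hK hin _) l1_one_le)
    have h2 := l1_linPoly (m := m) n a haK hK hin r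
    have h3 := l1_sub_le (linPoly i a r - prevPoly i a r) (X (r, 0))
    have h4 := l1_sub_le (linPoly i a r) (prevPoly i a r)
    have h5 := l1_X_le (σ := Fin m × Fin (i + 1)) (r, 0)
    rw [slackPoly]
    omega

end construction

/-! ## The bound -/

/-- the explicit index -/
def T (k n : ℕ) : ℕ :=
  k * (n + 1) + 2 * n +
    k * (((n + 1) ^ (n + 1) * n * n ^ n) ^ 2 + (2 * (n * (k ^ 2 * n + 1) ^ n) + 2) ^ 2)

theorem h_le (k n : ℕ) (hn : 1 ≤ n) : h (k : ℕ∞) n ≤ h 2 (T k n) := by
  classical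
  refine Nat.sInf_le fun i D hD => ?_
  have hfin : (sols D n).Finite := Set.finite_of_encard_le_coe (hD.few n).le
  set S : Finset (Fin i → ℕ) := hfin.toFinset with hSdef
  have hS : ∀ y, y ∈ S ↔ val D n y = 0 := fun y => hfin.mem_toFinset
  have hSk : S.card < k := by
    have := hD.few n
    rw [hfin.encard_eq_coe_toFinset_card] at this
    exact_mod_cast this
  have hS1 : 0 < S.card := by
    obtain ⟨v, hv⟩ := hD.solvable n
    exact Finset.card_pos.2 ⟨v, hfin.mem_toFinset.2 hv⟩
  obtain ⟨a, ha, hinj⟩ := exists_separating S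
  obtain ⟨z, hz⟩ := exists_unique D n a S hS hinj
  set E : MvPolynomial (Fin (S.card * (i + 1) + 1)) ℤ :=
    rename (fun q => (finProdFinEquiv q).succ) (bigPoly D n a S.card) with hE
  have hinjf : Function.Injective (fun q : Fin S.card × Fin (i + 1) =>
      (finProdFinEquiv q).succ) := fun q q' e => finProdFinEquiv.injective (Fin.succ_injective _ e)
  have hval : ∀ (j : ℕ) (w : Fin (S.card * (i + 1)) → ℕ),
      val E j w = nval (bigPoly D n a S.card) (fun q => w (finProdFinEquiv q)) := by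
    intro j w
    rw [val, hE, eval_rename, nval]
    congr 2
  have hsol : ∀ j, sols E j = {fun p => z (finProdFinEquiv.symm p)} := by
    intro j
    ext w
    rw [sols, Set.mem_ofPred_eq, hval, hz, Set.mem_singleton_iff]
    constructor
    · intro h; funext p; rw [← h]; exact (congrArg w (finProdFinEquiv.apply_symm_apply p)).symm
    · rintro rfl; funext q; simp
  have hain : a ≤ k ^ 2 * n + 1 := by
    refine ha.trans ((Nat.mul_le_mul (Nat.pow_le_pow_left hSk.le 2) hD.unknowns).trans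
      (Nat.le_succ _))
  have hEB : InB 2 (T k n) E := by
    refine ⟨?_, ?_, ?_, ?_, ?_⟩
    · have : S.card * (i + 1) ≤ k * (n + 1) :=
        Nat.mul_le_mul hSk.le (Nat.succ_le_succ hD.unknowns)
      unfold T; omega
    · refine (totalDegree_rename_le _ _).trans ((totalDegree_bigPoly D n a hn hD.degree).trans ?_)
      unfold T; omega
    · intro m
      have h1 := l1_rename_coeff _ hinjf (bigPoly D n a S.card) m
      have h2 := l1_bigPoly (m := S.card) D n a (K := k ^ 2 * n + 1) hain (by omega)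
        hD.unknowns hn hD.degree hD.coeff
      have h3 : S.card * (((n + 1) ^ (n + 1) * n * n ^ n) ^ 2 +
          (2 * (n * (k ^ 2 * n + 1) ^ n) + 2) ^ 2) ≤
          k * (((n + 1) ^ (n + 1) * n * n ^ n) ^ 2 +
          (2 * (n * (k ^ 2 * n + 1) ^ n) + 2) ^ 2) := Nat.mul_le_mul_right _ hSk.le
      have h4 : (E.coeff m).natAbs ≤ T k n := by
        refine h1.trans (h2.trans (h3.trans ?_))
        unfold T; omega
      rw [Int.abs_eq_natAbs]
      exact_mod_cast h4
    · intro j; rw [hsol]; exact Set.singleton_nonempty _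
    · intro j; rw [hsol, Set.encard_singleton]; norm_num
  obtain ⟨w, hw, hwb⟩ := isBound_h 2 (T k n) _ E hEB
  have hw' : nval (bigPoly D n a S.card) (fun q => w (finProdFinEquiv q)) = 0 := by
    rw [← hval (T k n)]; exact hw
  rw [nval_bigPoly_eq_zero] at hw'
  exact ⟨block (fun q => w (finProdFinEquiv q)) ⟨0, hS1⟩, hw'.1 _, fun t => hwb _⟩

theorem primrec_T : Primrec₂ T := by
  have hpow : Primrec₂ (fun a b : ℕ => a ^ b) := Primrec₂.unpaired'.1 Nat.Primrec.pow
  have hk : Primrec (fun p : ℕ × ℕ => p.1) := Primrec.fst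
  have hn : Primrec (fun p : ℕ × ℕ => p.2) := Primrec.snd
  have hn1 : Primrec (fun p : ℕ × ℕ => p.2 + 1) := Primrec.succ.comp hn
  have hc : ∀ c : ℕ, Primrec (fun _ : ℕ × ℕ => c) := fun c => Primrec.const c
  have hA : Primrec (fun p : ℕ × ℕ => ((p.2 + 1) ^ (p.2 + 1) * p.2 * p.2 ^ p.2) ^ 2) :=
    hpow.comp (Primrec.nat_mul.comp (Primrec.nat_mul.comp (hpow.comp hn1 hn1) hn)
      (hpow.comp hn hn)) (hc 2)
  have hB : Primrec (fun p : ℕ × ℕ => (2 * (p.2 * (p.1 ^ 2 * p.2 + 1) ^ p.2) + 2) ^ 2) :=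
    hpow.comp (Primrec.nat_add.comp (Primrec.nat_mul.comp (hc 2) (Primrec.nat_mul.comp hn
      (hpow.comp (Primrec.succ.comp (Primrec.nat_mul.comp (hpow.comp hk (hc 2)) hn)) hn)))
      (hc 2)) (hc 2)
  exact Primrec.nat_add.comp (Primrec.nat_add.comp (Primrec.nat_mul.comp hk hn1)
    (Primrec.nat_mul.comp (hc 2) hn)) (Primrec.nat_mul.comp hk (Primrec.nat_add.comp hA hB))

/-- For every computable bound `s(n) ≥ 2` on the multiplicity, `n ↦ h_{s(n)}(n)` is majorised by a
computable function if and only if `h_2` is. In particular Q1 has the same answer for all finite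
`κ ≥ 2`. -/
theorem result (s : ℕ → ℕ) (hs : Computable s) (h2 : ∀ n, 2 ≤ s n) :
    Majorised (fun n => h (s n : ℕ∞) n) ↔ Majorised (fun n => h 2 n) := by
  constructor
  · rintro ⟨F, hF, hb⟩
    exact ⟨F, hF, fun n hn => (h_mono (by exact_mod_cast h2 n) n).trans (hb n hn)⟩
  · rintro ⟨F, hF, hb⟩
    refine ⟨fun n => F (T (s n) n), hF.comp (primrec_T.to_comp.comp hs Computable.id),
      fun n hn => (h_le (s n) n hn).trans (hb _ ?_)⟩
    unfold T; omega

end Pool.Agent.Results.MP_249e8c_lc.FiniteKappa
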